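import Pool.Agent.Rot5.MainU

/-!
# Cyclic actions on the 4-sphere fixing an unknot and smooth structures on `S¹ × S³`

Let `C` be the class of the smooth 4-manifolds `M` with a homeomorphism `M → S¹ × S³` which is a
local diffeomorphism over a circle `S¹ × v` and with a smooth covering with a standard end, and
let `n ≥ 2`. All actions of order `n` are linear off one orbit if and only if all members of `C`
are standard off one point. All members of `C` are diffeomorphic to `S¹ × S³` if and only if the
smooth Schoenflies problem in dimension four has a positive answer and all actions of order `n`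
are linear.
-/

set_option autoImplicit false

namespace Pool.Agent.Results.MP_6a3142_gt.ActionsAndS1S3

open Pool.Agent.HopfCov.Smooth

theorem result :
    (∀ n ≥ 2, (∀ g : Sph4 → Sph4, UnknotAction n g → LinearOffOneOrbit g) ↔
      ∀ M : Mfd4, ClassS M → OffPoint M) ∧
    (∀ n ≥ 2, (∀ M : Mfd4, ClassS M → DiffeoS1S3 M) ↔
      Schoenflies ∧ ∀ g : Sph4 → Sph4, UnknotAction n g → SmoothlyLinear g) :=
  ⟨fun _ hn => Pool.Agent.Rot5.off_class6 hn, fun _ hn => Pool.Agent.Rot5.unique_class6 hn⟩

end Pool.Agent.Results.MP_6a3142_gt.ActionsAndS1S3
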