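import Pool.Agent.Rot7.MainR

/-!
# Cyclic actions on the 4-sphere fixing an unknot: recognition of the actions which are linear off
one orbit

Let `n ≥ 2`. An action of order `n` is a diffeomorphism `g` of the 4-sphere with `g ^ n = 1` whose
fixed point set is an unknotted 2-sphere and which is conjugate to the rotation by `2 π / n` by a
homeomorphism which is a local diffeomorphism at the fixed points (this is satisfied by Freedman's
theorems). The following conditions are equivalent: `g` is linear off one orbit; the fixed 2-sphere
bounds a smooth 3-ball (the image of the half equator under a diffeomorphism) which meets its image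
under `g` only in the boundary; the fixed 2-sphere bounds such a 3-ball which meets its images under
`g, ..., g ^ (n - 1)` only in the boundary; `g` is conjugate to the rotation by a homeomorphism `h`
which agrees with a diffeomorphism near the fixed points and is a local diffeomorphism off a closed
set `A` such that `A` or `h A` has length zero or `A` lies in the translates of an open ball which is
disjoint from them. All actions of order `n` are linear if and only if for one, or each, `m ≥ 2` the
fixed 2-sphere of every action of order `m` bounds a smooth 3-ball which is disjoint from its image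
and `D / [D, D]` has no element `d ≠ 1` with `d ^ n = 1`.
-/

set_option autoImplicit false

namespace Pool.Agent.Results.MP_6a3142_gt.DisjointBalls

open Pool.Agent.HopfCov.Smooth

theorem result (n : ℕ) (hn : 2 ≤ n) :
    (∀ g : Sph4 → Sph4, UnknotAction n g →
      (LinearOffOneOrbit g ↔ DisjointBall 1 g) ∧
      (LinearOffOneOrbit g ↔ DisjointBall (n - 1) g) ∧
      (LinearOffOneOrbit g ↔ AlmostLinear n g)) ∧
    ∀ m ≥ 2, (∀ g : Sph4 → Sph4, UnknotAction n g → SmoothlyLinear g) ↔
      (∀ g : Sph4 → Sph4, UnknotAction m g → DisjointBall 1 g) ∧
        ∀ d ∈ grpD, d ^ n ∈ derD → d ∈ derD :=
  ⟨fun _ hg => Pool.Agent.Rot7.recognition hn hg, fun _ hm => Pool.Agent.Rot7.question7 hn hm⟩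

end Pool.Agent.Results.MP_6a3142_gt.DisjointBalls
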