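import Pool.Agent.Rot5.MainU

/-!
# Cyclic actions on the 4-sphere fixing an unknot: one order decides all orders

An action of order `n` is a diffeomorphism `g` of the 4-sphere with `g ^ n = 1` whose fixed point
set is an unknotted 2-sphere and which is conjugate to the rotation by `2 π / n` around the
standard 2-sphere by a homeomorphism which is a local diffeomorphism at the fixed points; the last
condition is satisfied by Freedman's theorems. If for one order `n ≥ 2` some action is not linear
off one orbit then for every order `m ≥ 2` there are infinitely many pairwise inequivalent actions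
which are not linear off one orbit. All actions of order `n` are smoothly equivalent to linear
ones if and only if the actions of all orders are linear off one orbit and `D / [D, D]` has no
nontrivial element `d` with `d ^ n = 1`, where `D` is the group of the homeomorphisms of `ℝ⁴`
which fix `0` and are orientation preserving diffeomorphisms off `0`. All actions of order `n m`
are linear if and only if all actions of order `n` and all actions of order `m` are linear. If the
smooth Schoenflies problem in dimension four has a positive answer then all actions of all orders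
`m ≥ 2` are linear as soon as this is true for one order.
-/

set_option autoImplicit false

namespace Pool.Agent.Results.MP_6a3142_gt.OneOrderDecides

open Pool.Agent.HopfCov.Smooth

theorem result :
    (∀ n ≥ 2, ∀ m ≥ 2, (∃ g : Sph4 → Sph4, UnknotAction n g ∧ ¬ LinearOffOneOrbit g) →
      ∃ F : ℕ → Sph4 → Sph4, (∀ k, UnknotAction m (F k) ∧ ¬ LinearOffOneOrbit (F k)) ∧
        ∀ i j, i ≠ j → ¬ ConjugateGroups (F i) (F j)) ∧
    (∀ n ≥ 2, (∀ g : Sph4 → Sph4, UnknotAction n g → SmoothlyLinear g) ↔
      (∀ m ≥ 2, ∀ g : Sph4 → Sph4, UnknotAction m g → LinearOffOneOrbit g) ∧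
        ∀ d ∈ grpD, d ^ n ∈ derD → d ∈ derD) ∧
    (∀ n ≥ 2, ∀ m ≥ 2, (∀ g : Sph4 → Sph4, UnknotAction (n * m) g → SmoothlyLinear g) ↔
      (∀ g : Sph4 → Sph4, UnknotAction n g → SmoothlyLinear g) ∧
        ∀ g : Sph4 → Sph4, UnknotAction m g → SmoothlyLinear g) ∧
    (Schoenflies → ∀ n ≥ 2, ∀ m ≥ 2,
      (∀ g : Sph4 → Sph4, UnknotAction n g → SmoothlyLinear g) →
        ∀ g : Sph4 → Sph4, UnknotAction m g → SmoothlyLinear g) :=
  ⟨fun _ hn _ hm h => Pool.Agent.Rot5.infinite6 hn h hm,
    fun _ hn => Pool.Agent.Rot5.question6 hn,
    fun _ hn _ hm => Pool.Agent.Rot5.product6 hn hm,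
    fun hS _ hn _ hm h => Pool.Agent.Rot5.schoenflies6 hS hn hm h⟩

end Pool.Agent.Results.MP_6a3142_gt.OneOrderDecides
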