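import Pool.Agent.Rot6.MainC

/-!
# Cyclic actions on the 4-sphere fixing an unknot: classification of the actions which are linear off
one orbit

Let `n ≥ 2`. An action of order `n` is a diffeomorphism `g` of the 4-sphere with `g ^ n = 1` whose
fixed point set is an unknotted 2-sphere and which is conjugate to the rotation by `2 π / n` by a
homeomorphism which is a local diffeomorphism at the fixed points (this is satisfied by Freedman's
theorems). It is linear off one orbit if and only if it is conjugate to the rotation by a
homeomorphism `h` which agrees near the fixed points with a diffeomorphism and is a local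
diffeomorphism off one orbit, not a fixed point; in local coordinates `h` is near a point of this
orbit an element `d` of the group `D` of the homeomorphisms of `ℝ⁴` which fix `0` and are orientation
preserving diffeomorphisms off `0`. The class of `d` in the abelian group `D / [D, D]` is an element
of order dividing `n`; it is trivial if and only if the action is linear; the classes of two actions
agree up to mirror images if and only if the actions generate conjugate subgroups of the
diffeomorphism group of the 4-sphere; and every class of order dividing `n` occurs.
-/

set_option autoImplicit false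

namespace Pool.Agent.Results.MP_6a3142_gt.SingularOrbit

open Pool.Agent.HopfCov.Smooth

theorem result (n : ℕ) (hn : 2 ≤ n) :
    (∀ g : Sph4 → Sph4, UnknotAction n g ∧ LinearOffOneOrbit g ↔ ∃ d, SingularType n g d) ∧
    (∀ (g : Sph4 → Sph4) (d : Homeo4), SingularType n g d →
      d ^ n ∈ derD ∧ (SmoothlyLinear g ↔ d ∈ derD)) ∧
    (∀ (g g' : Sph4 → Sph4) (d d' : Homeo4), SingularType n g d → SingularType n g' d' →
      (ConjugateGroups g g' ↔ ∃ k ∈ grpP, d' * (k * d * k⁻¹)⁻¹ ∈ derD)) ∧
    ∀ d ∈ grpD, d ^ n ∈ derD → ∃ (g : Sph4 → Sph4) (d' : Homeo4),
      SingularType n g d' ∧ d' * d⁻¹ ∈ derD :=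
  ⟨Pool.Agent.Rot6.exists_type hn, fun _ _ => Pool.Agent.Rot6.type_pow hn,
    fun _ _ _ _ => Pool.Agent.Rot6.type_iff hn, fun _ hd => Pool.Agent.Rot6.type_surj hn hd⟩

end Pool.Agent.Results.MP_6a3142_gt.SingularOrbit
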